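import Mathlib

/-!
Mason-Stothers for polynomials with a squarefree common divisor.
-/

namespace Pool.Agent.J4H90.PS

open Polynomial UniqueFactorizationMonoid

open scoped Classical in
theorem mason {x y z : ℚ[X]} (hx : x ≠ 0) (hy : y ≠ 0) (hz : z ≠ 0) {a b c : ℚ} (ha : a ≠ 0)
    (hb : b ≠ 0) (hc : c ≠ 0) (h : C a * x + C b * y = C c * z)
    (hsq : ∀ q : ℚ[X], q * q ∣ x → q * q ∣ y → IsUnit q)
    (hdeg : 0 < x.natDegree + y.natDegree + z.natDegree) :
    x.natDegree + 1 ≤ (radical x).natDegree + (radical y).natDegree + (radical z).natDegree ∧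
    y.natDegree + 1 ≤ (radical x).natDegree + (radical y).natDegree + (radical z).natDegree ∧
    z.natDegree + 1 ≤ (radical x).natDegree + (radical y).natDegree + (radical z).natDegree := by
  obtain ⟨x1, y1, g, hrel, hgx, hgy⟩ := exists_reduced_factors x hx y
  have hg0 : g ≠ 0 := by rintro rfl; simp at hgx; exact hx hgx.symm
  have hx10 : x1 ≠ 0 := by rintro rfl; simp at hgx; exact hx hgx.symm
  have hy10 : y1 ≠ 0 := by rintro rfl; simp at hgy; exact hy hgy.symm
  have hgsq : Squarefree g := fun q hq => hsq q (hq.trans ⟨x1, hgx.symm⟩) (hq.trans ⟨y1, hgy.symm⟩)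
  obtain ⟨g1, x2, g2, hrel2, hg, hx1⟩ := exists_reduced_factors g hg0 x1
  have hg10 : g1 ≠ 0 := by rintro rfl; simp at hg; exact hg0 hg.symm
  have hg20 : g2 ≠ 0 := by rintro rfl; simp at hg; exact hg0 hg.symm
  have hsqm := squarefree_mul_iff.1 (hg ▸ hgsq : Squarefree (g2 * g1))
  have hrel3 : IsRelPrime g1 x1 := by
    rw [← hx1]
    exact IsRelPrime.mul_right hsqm.1.symm hrel2
  have hrel4 : IsRelPrime y1 g2 := fun d h1 h2 => hrel (h2.trans ⟨x2, hx1.symm⟩) h1
  -- divisibility of the radicals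
  have hA : radical x1 * g1 ∣ radical x := by
    apply IsRelPrime.mul_dvd
    · exact fun d h1 h2 => hrel3 h2 (h1.trans radical_dvd_self)
    · exact radical_dvd_radical ⟨g, by rw [← hgx]; ring⟩ hx
    · rw [dvd_radical_iff hsqm.2.2.isRadical hx]
      exact (Dvd.intro_left g2 hg : g1 ∣ g).trans (Dvd.intro x1 hgx)
  have hB : radical y1 * g2 ∣ radical y := by
    apply IsRelPrime.mul_dvd
    · exact fun d h1 h2 => hrel4 (h1.trans radical_dvd_self) h2
    · exact radical_dvd_radical ⟨g, by rw [← hgy]; ring⟩ hy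
    · rw [dvd_radical_iff hsqm.2.1.isRadical hy]
      exact (Dvd.intro g1 hg : g2 ∣ g).trans (Dvd.intro y1 hgy)
  obtain ⟨z1, hz1⟩ : ∃ z1, z1 = C c⁻¹ * (C a * x1 + C b * y1) := ⟨_, rfl⟩
  have hcc : C c * C c⁻¹ = (1 : ℚ[X]) := by rw [← C_mul, mul_inv_cancel₀ hc, C_1]
  have hcz1 : C c * z1 = C a * x1 + C b * y1 := by rw [hz1, ← mul_assoc, hcc, one_mul]
  have hgz : g * z1 = z := by
    have h1 : C c * (g * z1) = C c * z := by
      rw [← h, ← hgx, ← hgy]
      linear_combination g * hcz1
    exact mul_left_cancel₀ (C_ne_zero.2 hc) h1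
  have hz10 : z1 ≠ 0 := by rintro rfl; simp at hgz; exact hz hgz.symm
  have hCc : radical z1 ∣ radical z := radical_dvd_radical ⟨g, by rw [← hgz]; ring⟩ hz
  have dA := natDegree_le_of_dvd hA radical_ne_zero
  have dB := natDegree_le_of_dvd hB radical_ne_zero
  have dC := natDegree_le_of_dvd hCc radical_ne_zero
  rw [natDegree_mul radical_ne_zero hg10] at dA
  rw [natDegree_mul radical_ne_zero hg20] at dB
  have dg : g.natDegree = g2.natDegree + g1.natDegree := by rw [← hg, natDegree_mul hg20 hg10]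
  have dx : x.natDegree = g.natDegree + x1.natDegree := by rw [← hgx, natDegree_mul hg0 hx10]
  have dy : y.natDegree = g.natDegree + y1.natDegree := by rw [← hgy, natDegree_mul hg0 hy10]
  have dz : z.natDegree = g.natDegree + z1.natDegree := by rw [← hgz, natDegree_mul hg0 hz10]
  have hua : IsUnit (C a) := isUnit_C.2 (isUnit_iff_ne_zero.2 ha)
  have hub : IsUnit (C b) := isUnit_C.2 (isUnit_iff_ne_zero.2 hb)
  have huc : IsUnit (C c) := isUnit_C.2 (isUnit_iff_ne_zero.2 hc)
  have hcop : IsCoprime (C a * x1) (C b * y1) := by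
    have h1 : IsCoprime x1 y1 := hrel.isCoprime
    exact (isCoprime_mul_unit_left_left hua _ _).2 ((isCoprime_mul_unit_left_right hub _ _).2 h1)
  have hsum : C a * x1 + C b * y1 + -(C c * z1) = 0 := by rw [hcz1]; ring
  rcases Polynomial.abc (mul_ne_zero (C_ne_zero.2 ha) hx10) (mul_ne_zero (C_ne_zero.2 hb) hy10)
    (neg_ne_zero.2 (mul_ne_zero (C_ne_zero.2 hc) hz10)) hcop hsum with ⟨h1, h2, h3⟩ | ⟨h1, h2, h3⟩
  · have hr : (radical (C a * x1 * (C b * y1) * -(C c * z1))).natDegree ≤
        (radical x1).natDegree + (radical y1).natDegree + (radical z1).natDegree := by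
      have h4 : radical (C a * x1 * (C b * y1) * -(C c * z1)) ∣
          radical x1 * radical y1 * radical z1 := by
        refine radical_mul_dvd.trans (mul_dvd_mul (radical_mul_dvd.trans (mul_dvd_mul ?_ ?_)) ?_)
        · rw [radical_mul_of_isUnit_left hua]
        · rw [radical_mul_of_isUnit_left hub]
        · rw [UniqueFactorizationDomain.radical_neg, radical_mul_of_isUnit_left huc]
      refine (natDegree_le_of_dvd h4 (mul_ne_zero (mul_ne_zero radical_ne_zero radical_ne_zero)
        radical_ne_zero)).trans ?_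
      exact natDegree_mul_le.trans (add_le_add natDegree_mul_le le_rfl)
    rw [natDegree_C_mul ha] at h1
    rw [natDegree_C_mul hb] at h2
    rw [natDegree_neg, natDegree_C_mul hc] at h3
    refine ⟨?_, ?_, ?_⟩ <;> omega
  · have e1 := Polynomial.derivative_eq_zero.1 h1
    have e2 := Polynomial.derivative_eq_zero.1 h2
    have e3 := Polynomial.derivative_eq_zero.1 h3
    rw [natDegree_C_mul ha] at e1
    rw [natDegree_C_mul hb] at e2
    rw [natDegree_neg, natDegree_C_mul hc] at e3
    have hgr : ∀ w : ℚ[X], w ≠ 0 → g ∣ w → g.natDegree ≤ (radical w).natDegree := by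
      intro w hw hgw
      exact natDegree_le_of_dvd ((dvd_radical_iff hgsq.isRadical hw).2 hgw) radical_ne_zero
    have r1 := hgr x hx ⟨x1, hgx.symm⟩
    have r2 := hgr y hy ⟨y1, hgy.symm⟩
    have r3 := hgr z hz ⟨z1, hgz.symm⟩
    refine ⟨?_, ?_, ?_⟩ <;> omega

end Pool.Agent.J4H90.PS
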