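import Mathlib

/-!
Common square factors of integer polynomials and of their values.
-/

namespace Pool.Agent.J4H90.PS

open Polynomial

theorem root_le {f : ℤ[X]} (hf : f ≠ 0) {U : ℝ} (hU : ∀ i, |(f.coeff i : ℝ)| ≤ U) {z : ℂ}
    (hz : (f.map (Int.castRingHom ℂ)).IsRoot z) : ‖z‖ ≤ U + 1 := by
  have hinj : Function.Injective (Int.castRingHom ℂ) := Int.cast_injective
  have hm : f.map (Int.castRingHom ℂ) ≠ 0 := (Polynomial.map_ne_zero_iff hinj).2 hf
  have h1 := IsRoot.norm_lt_cauchyBound hm hz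
  have hU0 : 0 ≤ U := (abs_nonneg _).trans (hU 0)
  have h2 : (cauchyBound (f.map (Int.castRingHom ℂ)) : ℝ) ≤ U + 1 := by
    have h3 : cauchyBound (f.map (Int.castRingHom ℂ)) ≤ U.toNNReal + 1 := by
      unfold cauchyBound
      refine add_le_add ?_ le_rfl
      have h7 : (1 : NNReal) ≤ ‖(f.map (Int.castRingHom ℂ)).leadingCoeff‖₊ := by
        rw [leadingCoeff_map_of_injective hinj, ← NNReal.coe_le_coe, coe_nnnorm, eq_intCast,
          Complex.norm_intCast, NNReal.coe_one]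
        exact_mod_cast Int.one_le_abs (leadingCoeff_ne_zero.2 hf)
      refine (div_le_self zero_le h7).trans (Finset.sup_le fun i _ => ?_)
      have h5 : ((‖(f.map (Int.castRingHom ℂ)).coeff i‖₊ : NNReal) : ℝ) ≤ (U.toNNReal : ℝ) := by
        rw [Real.coe_toNNReal U hU0, coeff_map, eq_intCast, coe_nnnorm, Complex.norm_intCast]
        exact hU i
      exact NNReal.coe_le_coe.1 h5
    have h6 : (cauchyBound (f.map (Int.castRingHom ℂ)) : ℝ) ≤ ((U.toNNReal + 1 : NNReal) : ℝ) :=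
      NNReal.coe_le_coe.2 h3
    rwa [NNReal.coe_add, Real.coe_toNNReal U hU0, NNReal.coe_one] at h6
  have h4 : (‖z‖₊ : ℝ) < cauchyBound (f.map (Int.castRingHom ℂ)) := by exact_mod_cast h1
  rw [coe_nnnorm] at h4
  linarith

theorem prod_ge (ρ t : ℝ) (ht : ρ ≤ t) (m : Multiset ℂ) (hm : ∀ z ∈ m, ‖z‖ ≤ ρ) :
    (t - ρ) ^ (Multiset.card m) ≤ ‖(m.map fun z => (t : ℂ) - z).prod‖ := by
  induction m using Multiset.induction_on with
  | empty => simp
  | cons z m ih =>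
    rw [Multiset.card_cons, Multiset.map_cons, Multiset.prod_cons, norm_mul, pow_succ, mul_comm]
    have h1 : t - ρ ≤ ‖(t : ℂ) - z‖ := by
      have h2 : ‖(t : ℂ)‖ - ‖z‖ ≤ ‖(t : ℂ) - z‖ := norm_sub_norm_le _ _
      have h3 := hm z (Multiset.mem_cons_self _ _)
      have h4 : t ≤ ‖(t : ℂ)‖ := by
        rw [Complex.norm_real]; exact Real.le_norm_self t
      linarith
    exact mul_le_mul h1 (ih fun w hw => hm w (Multiset.mem_cons_of_mem hw))
      (pow_nonneg (by linarith) _) (norm_nonneg _)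

theorem eval_ge {q : ℤ[X]} (hd : 0 < q.natDegree) {ρ : ℝ} (t : ℕ)
    (h : ∀ z : ℂ, (q.map (Int.castRingHom ℂ)).IsRoot z → ‖z‖ ≤ ρ) (ht : ρ + 1 ≤ t) :
    (t : ℝ) - ρ ≤ |((q.eval (t : ℤ) : ℤ) : ℝ)| := by
  have hinj : Function.Injective (Int.castRingHom ℂ) := Int.cast_injective
  have hq : q ≠ 0 := by rintro rfl; simp at hd
  set p := q.map (Int.castRingHom ℂ) with hp
  have hs : p.Splits := IsAlgClosed.splits p
  have h1 : p.eval (t : ℂ) = ((q.eval (t : ℤ) : ℤ) : ℂ) := by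
    rw [hp, eval_map]
    have := eval₂_at_apply (p := q) (Int.castRingHom ℂ) (t : ℤ)
    simp only [eq_intCast, Int.cast_natCast] at this
    exact this
  have h2 := hs.eval_eq_prod_roots (t : ℂ)
  have h3 : Multiset.card p.roots = p.natDegree := hs.natDegree_eq_card_roots.symm
  have h4 := prod_ge ρ t (by linarith) p.roots fun z hz => h z (isRoot_of_mem_roots hz)
  have h5 : ‖p.eval (t : ℂ)‖ = |((q.eval (t : ℤ) : ℤ) : ℝ)| := by
    rw [h1, Complex.norm_intCast]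
  have h6 : 1 ≤ ‖p.leadingCoeff‖ := by
    rw [hp, leadingCoeff_map_of_injective hinj, eq_intCast, Complex.norm_intCast]
    exact_mod_cast Int.one_le_abs (leadingCoeff_ne_zero.2 hq)
  rw [← h5, h2, norm_mul]
  push_cast at h4 ⊢
  have h7 : (t : ℝ) - ρ ≤ ‖(p.roots.map fun z => (t : ℂ) - z).prod‖ := by
    refine le_trans ?_ h4
    rw [h3, hp, natDegree_map_eq_of_injective hinj]
    exact le_self_pow₀ (by linarith) (by omega)
  calc (t : ℝ) - ρ ≤ 1 * ‖(p.roots.map fun z => (t : ℂ) - z).prod‖ := by rw [one_mul]; exact h7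
    _ ≤ ‖p.leadingCoeff‖ * ‖(p.roots.map fun z => (t : ℂ) - z).prod‖ := by gcongr

/-- a common square of the values -/
theorem gcd_rad {X Y m : ℕ} (hX : X ≠ 0) (h1 : m * m ∣ X) (h2 : m * m ∣ Y) :
    m * ∏ p ∈ (Nat.gcd X Y).primeFactors, p ≤ Nat.gcd X Y := by
  have hg0 : Nat.gcd X Y ≠ 0 := by
    intro h
    exact hX (Nat.gcd_eq_zero_iff.1 h).1
  obtain ⟨c, hc⟩ := Nat.dvd_gcd h1 h2
  have hm0 : m ≠ 0 := by rintro rfl; simp at hc; exact hX hc.1
  have hc0 : c ≠ 0 := by rintro rfl; rw [mul_zero] at hc; exact hg0 hc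
  have h3 : (∏ p ∈ (Nat.gcd X Y).primeFactors, p) ∣ m * c := by
    have h4 : (Nat.gcd X Y).primeFactors = (m * c).primeFactors := by
      rw [hc, Nat.primeFactors_mul (mul_ne_zero hm0 hm0) hc0, Nat.primeFactors_mul hm0 hm0,
        Finset.union_self, Nat.primeFactors_mul hm0 hc0]
    rw [h4]
    exact Nat.prod_primeFactors_dvd (m * c)
  have h5 := Nat.le_of_dvd (Nat.pos_of_ne_zero (mul_ne_zero hm0 hc0)) h3
  calc m * ∏ p ∈ (Nat.gcd X Y).primeFactors, p ≤ m * (m * c) := Nat.mul_le_mul_left m h5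
    _ = Nat.gcd X Y := by rw [hc]; ring

/-- a primitive integer polynomial proportional to a rational one -/
theorem exists_prim {q : ℚ[X]} (hq : q ≠ 0) : ∃ g : ℤ[X], g.IsPrimitive ∧
    g.natDegree = q.natDegree ∧ g.map (Int.castRingHom ℚ) ∣ q := by
  have hinj : Function.Injective (Int.castRingHom ℚ) := Int.cast_injective
  obtain ⟨b, hbm, hb⟩ := IsLocalization.integerNormalization_spec (nonZeroDivisors ℤ) q
  set p := IsLocalization.integerNormalization (nonZeroDivisors ℤ) q with hp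
  have hb0 : ((b : ℤ) : ℚ) ≠ 0 := by
    have := nonZeroDivisors.ne_zero hbm
    exact_mod_cast this
  have hb' : p.map (Int.castRingHom ℚ) = C ((b : ℤ) : ℚ) * q := by
    have h1 : p.map (Int.castRingHom ℚ) = (b : ℤ) • q := hb
    rw [h1, ← Int.cast_smul_eq_zsmul ℚ, smul_eq_C_mul]
  have hp0 : p ≠ 0 := by
    intro h0
    rw [h0, Polynomial.map_zero] at hb'
    exact mul_ne_zero (C_ne_zero.2 hb0) hq hb'.symm
  refine ⟨p.primPart, p.isPrimitive_primPart, ?_, ?_⟩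
  · rw [natDegree_primPart, ← natDegree_map_eq_of_injective hinj p, hb', natDegree_C_mul hb0]
  · have h1 : p.primPart ∣ p := primPart_dvd p
    have h2 : p.primPart.map (Int.castRingHom ℚ) ∣ p.map (Int.castRingHom ℚ) :=
      Polynomial.map_dvd _ h1
    rw [hb'] at h2
    exact ((isUnit_C.2 (isUnit_iff_ne_zero.2 hb0)).dvd_mul_left).1 h2

theorem prim_dvd {g w : ℤ[X]} (hg : g.IsPrimitive)
    (h : g.map (Int.castRingHom ℚ) ∣ w.map (Int.castRingHom ℚ)) : g ∣ w :=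
  (IsPrimitive.Int.dvd_iff_map_cast_dvd_map_cast g w hg).2 h

theorem sq_unit {x y : ℤ[X]} (hx : x ≠ 0) {q : ℚ[X]}
    (h1 : q * q ∣ x.map (Int.castRingHom ℚ)) (h2 : q * q ∣ y.map (Int.castRingHom ℚ)) {ρ : ℝ}
    (hroot : ∀ z : ℂ, (x.map (Int.castRingHom ℂ)).IsRoot z → ‖z‖ ≤ ρ) {t : ℕ} (ht : ρ + 1 ≤ t)
    {X Y : ℕ} (hX0 : X ≠ 0) (hX : x.eval (t : ℤ) = X) (hY : y.eval (t : ℤ) = Y)
    (hg : ((Nat.gcd X Y : ℕ) : ℝ) < (t - ρ) * ((∏ p ∈ (Nat.gcd X Y).primeFactors, p : ℕ) : ℝ)) :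
    IsUnit q := by
  by_contra hq
  have hinj : Function.Injective (Int.castRingHom ℚ) := Int.cast_injective
  have hx0 : x.map (Int.castRingHom ℚ) ≠ 0 := (Polynomial.map_ne_zero_iff hinj).2 hx
  have hq0 : q ≠ 0 := by
    rintro rfl
    rw [zero_mul, zero_dvd_iff] at h1
    exact hx0 h1
  obtain ⟨g, hgp, hgd', hgq⟩ := exists_prim hq0
  have hgd : 0 < g.natDegree := by
    rw [pos_iff_ne_zero, hgd']
    intro h0
    apply hq
    rw [eq_C_of_natDegree_eq_zero h0] at hq0 ⊢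
    exact isUnit_C.2 (isUnit_iff_ne_zero.2 (C_ne_zero.1 hq0))
  have hd : ∀ w : ℤ[X], q * q ∣ w.map (Int.castRingHom ℚ) → g * g ∣ w := by
    intro w hw
    refine prim_dvd (hgp.mul hgp) (dvd_trans ?_ hw)
    rw [Polynomial.map_mul]
    exact mul_dvd_mul hgq hgq
  have e1 := hd x h1
  have e2 := hd y h2
  have hgr : ∀ z : ℂ, (g.map (Int.castRingHom ℂ)).IsRoot z → ‖z‖ ≤ ρ := by
    intro z hz
    apply hroot z
    obtain ⟨c, hc⟩ := e1
    rw [hc, mul_assoc, Polynomial.map_mul, IsRoot, eval_mul]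
    rw [IsRoot] at hz
    rw [hz, zero_mul]
  have h3 := eval_ge hgd t hgr ht
  obtain ⟨m, hm⟩ : ∃ m, m = (g.eval (t : ℤ)).natAbs := ⟨_, rfl⟩
  have hdv : ∀ w : ℤ[X], ∀ W : ℕ, w.eval (t : ℤ) = W → g * g ∣ w → m * m ∣ W := by
    intro w W hW hw
    have h4 : (g * g).eval (t : ℤ) ∣ w.eval (t : ℤ) := eval_dvd hw
    rw [hW, eval_mul] at h4
    have h5 := Int.natAbs_dvd_natAbs.2 h4
    rwa [Int.natAbs_mul, ← hm, Int.natAbs_natCast] at h5
  have h4 := gcd_rad hX0 (hdv x X hX e1) (hdv y Y hY e2)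
  have h5 : ((m : ℕ) : ℝ) = |((g.eval (t : ℤ) : ℤ) : ℝ)| := by
    rw [hm, Nat.cast_natAbs, Int.cast_abs]
  rw [← h5] at h3
  have h6 : (m : ℝ) * ((∏ p ∈ (Nat.gcd X Y).primeFactors, p : ℕ) : ℝ) ≤ ((Nat.gcd X Y : ℕ) : ℝ) := by
    exact_mod_cast h4
  have h7 : (0 : ℝ) ≤ ((∏ p ∈ (Nat.gcd X Y).primeFactors, p : ℕ) : ℝ) := Nat.cast_nonneg _
  have h8 := mul_le_mul_of_nonneg_right h3 h7
  linarith

end Pool.Agent.J4H90.PS
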