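import Pool.Agent.J4H90.PS.Trunc
import Pool.Agent.J4H90.PS.Mason
import Pool.Agent.J4H90.PS.Sq

/-!
Three products of few different values of polynomials.
-/

namespace Pool.Agent.J4H90.PS

open Polynomial UniqueFactorizationMonoid

/-- a product of powers of values at `t` of integer polynomials of degree `e` with
coefficients at most `U`, the product of all leading coefficients being at most `L`; at most `k`
different factors, degree at most `N` -/
structure Pr (t : ℕ) (U L : ℤ) (d k N : ℕ) (s : Finset ℕ) (a : ℕ → ℕ) (f : ℕ → ℤ[X]) (e : ℕ) :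
    Prop where
  lead : ∏ v ∈ s, |(f v).leadingCoeff| ^ a v ≤ L
  deg : ∀ v ∈ s, (f v).natDegree = e
  coeff : ∀ v ∈ s, ∀ i, |(f v).coeff i| ≤ U
  eval : ∀ v ∈ s, (f v).eval (t : ℤ) = v
  pos : ∀ v ∈ s, 0 < v
  hed : e ≤ d
  hk : s.card ≤ k
  hN : ∑ v ∈ s, a v ≤ N

/-- the polynomial -/
noncomputable def W (s : Finset ℕ) (a : ℕ → ℕ) (f : ℕ → ℤ[X]) : ℤ[X] := ∏ v ∈ s, f v ^ a v

/-- the value -/
def val (s : Finset ℕ) (a : ℕ → ℕ) : ℕ := ∏ v ∈ s, v ^ a v

section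

variable {t : ℕ} {U L : ℤ} {d k N : ℕ} {s : Finset ℕ} {a : ℕ → ℕ} {f : ℕ → ℤ[X]} {e : ℕ}

theorem Pr.ne (h : Pr t U L d k N s a f e) {v : ℕ} (hv : v ∈ s) : f v ≠ 0 := by
  intro h0
  have h1 := h.eval v hv
  rw [h0, eval_zero] at h1
  have := h.pos v hv
  omega

theorem Pr.W_ne (h : Pr t U L d k N s a f e) : W s a f ≠ 0 :=
  Finset.prod_ne_zero_iff.2 fun _ hv => pow_ne_zero _ (h.ne hv)

theorem Pr.W_deg (h : Pr t U L d k N s a f e) : (W s a f).natDegree = (∑ v ∈ s, a v) * e := by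
  unfold W
  rw [natDegree_prod _ _ fun v hv => pow_ne_zero _ (h.ne hv), Finset.sum_mul]
  refine Finset.sum_congr rfl fun v hv => ?_
  rw [natDegree_pow, h.deg v hv]

theorem Pr.W_dom (h : Pr t U L d k N s a f e) (hU : 0 ≤ U) :
    Dom (W s a f) ((∑ v ∈ s, a v) * e) (∏ v ∈ s, |(f v).leadingCoeff| ^ a v)
      ((∑ v ∈ s, a v : ℕ) * U) := by
  have := Dom.prod s (fun v => f v ^ a v) (fun v => a v * e)
    (fun v => |(f v).leadingCoeff| ^ a v) (fun v => (a v : ℤ) * U)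
    (fun v _ => by positivity) (fun v _ => by positivity) (fun v hv => by
      have h1 := Dom.of_ne_zero (h.ne hv) (h.coeff v hv)
      rw [h.deg v hv] at h1
      exact h1.pow (abs_nonneg _) hU (a v))
  rw [Finset.sum_mul]
  push_cast
  rw [Finset.sum_mul]
  exact this

theorem Pr.W_LD (h : Pr t U L d k N s a f e) : LD (W s a f) (k * d) := by
  have h1 := LD.prod s (fun v => f v ^ a v) (fun _ => e) (fun v hv => by
    have h1 := LD.self (h.ne hv)
    rw [h.deg v hv] at h1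
    exact h1.pow (a v))
  rw [Finset.sum_const, smul_eq_mul] at h1
  obtain ⟨R, m, hR, h2, h3, h4⟩ := h1
  have h5 : s.card * e ≤ k * d := Nat.mul_le_mul h.hk h.hed
  exact ⟨R, m, hR, h2, h3.trans h5, h4.trans h5⟩

theorem Pr.W_eval (h : Pr t U L d k N s a f e) : (W s a f).eval (t : ℤ) = (val s a : ℕ) := by
  unfold W val
  rw [eval_prod]
  push_cast
  refine Finset.prod_congr rfl fun v hv => ?_
  rw [eval_pow, h.eval v hv]

theorem Pr.val_pos (h : Pr t U L d k N s a f e) : 0 < val s a :=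
  Finset.prod_pos fun v hv => pow_pos (h.pos v hv) _

theorem Pr.W_root (h : Pr t U L d k N s a f e) {z : ℂ}
    (hz : ((W s a f).map (Int.castRingHom ℂ)).IsRoot z) : ‖z‖ ≤ (U : ℝ) + 1 := by
  rw [IsRoot, W, Polynomial.map_prod, eval_prod, Finset.prod_eq_zero_iff] at hz
  obtain ⟨v, hv, h1⟩ := hz
  rw [Polynomial.map_pow, eval_pow] at h1
  refine root_le (h.ne hv) (fun i => ?_) (z := z) ?_
  · exact_mod_cast h.coeff v hv i
  · by_contra hcon
    exact pow_ne_zero _ hcon h1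

open scoped Classical in
theorem Pr.W_rad (h : Pr t U L d k N s a f e) :
    (radical ((W s a f).map (Int.castRingHom ℚ))).natDegree ≤ s.card * e := by
  have h1 : radical ((W s a f).map (Int.castRingHom ℚ)) ∣
      ∏ v ∈ s, (f v).map (Int.castRingHom ℚ) := by
    rw [W, Polynomial.map_prod]
    refine radical_prod_dvd.trans (Finset.prod_dvd_prod_of_dvd _ _ fun v _ => ?_)
    rw [Polynomial.map_pow]
    exact radical_pow_dvd.trans radical_dvd_self
  have hinj : Function.Injective (Int.castRingHom ℚ) := Int.cast_injective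
  have hm : ∀ v ∈ s, (f v).map (Int.castRingHom ℚ) ≠ 0 := fun v hv =>
    (Polynomial.map_ne_zero_iff hinj).2 (h.ne hv)
  refine (natDegree_le_of_dvd h1 (Finset.prod_ne_zero_iff.2 hm)).trans ?_
  rw [natDegree_prod _ _ hm]
  refine (Finset.sum_le_card_nsmul _ _ e fun v hv => ?_).trans (by simp)
  rw [natDegree_map_eq_of_injective hinj, h.deg v hv]

end

/-- three polynomials with few roots: a short relation vanishes -/
theorem vanish {f1 f2 f3 : ℤ[X]} {c1 c2 c3 b : ℤ} {r D : ℕ} (hc1 : c1 ≠ 0) (hc2 : c2 ≠ 0)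
    (hc3 : c3 ≠ 0) (m1 : f1 ≠ 0) (m2 : f2 ≠ 0) (m3 : f3 ≠ 0)
    (L1 : LD f1 r) (L2 : LD f2 r) (L3 : LD f3 r) (h1 : f1.eval b ≠ 0) (h2 : f2.eval b ≠ 0)
    (h3 : f3.eval b ≠ 0) (hd1 : f1.natDegree ≤ D) (hd2 : f2.natDegree ≤ D)
    (hd3 : f3.natDegree ≤ D) (hD : f1.natDegree = D ∨ f2.natDegree = D ∨ f3.natDegree = D)
    {P : ℤ[X]} (hP : P = C c1 * f1 + C c2 * f2 + C c3 * f3) (hb : P.eval b = 0)
    (hdeg : P.natDegree + 9 * r < D) : P = 0 := by
  have hc : P.coeff D = 0 := coeff_eq_zero_of_natDegree_lt (by omega)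
  rw [hP, coeff_add, coeff_add, coeff_C_mul, coeff_C_mul, coeff_C_mul] at hc
  have key : ∀ f : ℤ[X], f ≠ 0 → f.natDegree ≤ D →
      (f.natDegree = D ∧ f.coeff D ≠ 0) ∨ (f.natDegree < D ∧ f.coeff D = 0) := by
    intro f hf hle
    rcases hle.lt_or_eq with h | h
    · exact Or.inr ⟨h, coeff_eq_zero_of_natDegree_lt h⟩
    · exact Or.inl ⟨h, by rw [← h]; exact leadingCoeff_ne_zero.2 hf⟩
  rcases key f1 m1 hd1 with ⟨e1, k1⟩ | ⟨e1, k1⟩ <;> rcases key f2 m2 hd2 with ⟨e2, k2⟩ | ⟨e2, k2⟩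
  · exact trunc L1 L2 L3 h1 h2 h3 e1 e2 hP hb hdeg
  · rcases key f3 m3 hd3 with ⟨e3, k3⟩ | ⟨e3, k3⟩
    · exact trunc (c1 := c1) (c2 := c3) (c3 := c2) L1 L3 L2 h1 h3 h2 e1 e3 (by rw [hP]; ring) hb hdeg
    · rw [k2, k3, mul_zero, mul_zero, add_zero, add_zero] at hc
      exact absurd hc (mul_ne_zero hc1 k1)
  · rcases key f3 m3 hd3 with ⟨e3, k3⟩ | ⟨e3, k3⟩
    · exact trunc (c1 := c2) (c2 := c3) (c3 := c1) L2 L3 L1 h2 h3 h1 e2 e3 (by rw [hP]; ring) hb hdeg
    · rw [k1, k3, mul_zero, mul_zero, zero_add, add_zero] at hc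
      exact absurd hc (mul_ne_zero hc2 k2)
  · rcases key f3 m3 hd3 with ⟨e3, k3⟩ | ⟨e3, k3⟩
    · rw [k1, k2, mul_zero, mul_zero, zero_add, zero_add] at hc
      exact absurd hc (mul_ne_zero hc3 k3)
    · omega

/-- **The main step.** -/
theorem no_sol {t : ℕ} {U L : ℤ} {d k N : ℕ} {sx sy sz : Finset ℕ} {ax ay az : ℕ → ℕ}
    {fx fy fz : ℕ → ℤ[X]} {ex ey ez : ℕ} (hx : Pr t U L d k N sx ax fx ex)
    (hy : Pr t U L d k N sy ay fy ey) (hz : Pr t U L d k N sz az fz ez) {A B C : ℕ} (hA : 0 < A)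
    (hB : 0 < B) (hC : 0 < C) (hU : 1 ≤ U) (hL : 1 ≤ L) (hN : 1 ≤ N)
    (ht : (N : ℤ) * U + (((A : ℤ) + B + C) * L) * ((N : ℤ) * U) ^ (9 * (k * d) + 1) < t)
    (ht2 : U + 2 ≤ t)
    (hg : ((Nat.gcd (val sx ax) (val sy ay) : ℕ) : ℝ) < (t - ((U : ℝ) + 1)) *
      ((∏ p ∈ (Nat.gcd (val sx ax) (val sy ay)).primeFactors, p : ℕ) : ℝ))
    (hx1 : 1 ≤ ∑ v ∈ sx, ax v) (hy1 : 1 ≤ ∑ v ∈ sy, ay v) (hz1 : 1 ≤ ∑ v ∈ sz, az v)
    (he : 1 ≤ ex + ey + ez)
    (h : A * val sx ax + B * val sy ay = C * val sz az) :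
    (∑ v ∈ sx, ax v) * ex + 1 ≤ sx.card * ex + sy.card * ey + sz.card * ez ∧
    (∑ v ∈ sy, ay v) * ey + 1 ≤ sx.card * ex + sy.card * ey + sz.card * ez ∧
    (∑ v ∈ sz, az v) * ez + 1 ≤ sx.card * ex + sy.card * ey + sz.card * ez := by
  classical
  obtain ⟨V, hV⟩ : ∃ V, V = (N : ℤ) * U := ⟨_, rfl⟩
  have hV1 : 1 ≤ V := by
    rw [hV]
    have : (1 : ℤ) ≤ N := by exact_mod_cast hN
    nlinarith
  rw [← hV] at ht
  obtain ⟨D, hD⟩ : ∃ D, D = max (W sx ax fx).natDegree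
      (max (W sy ay fy).natDegree (W sz az fz).natDegree) := ⟨_, rfl⟩
  have hDx : (W sx ax fx).natDegree ≤ D := by omega
  have hDy : (W sy ay fy).natDegree ≤ D := by omega
  have hDz : (W sz az fz).natDegree ≤ D := by omega
  obtain ⟨P, hP⟩ : ∃ P : ℤ[X], P = Polynomial.C (A : ℤ) * W sx ax fx +
      Polynomial.C (B : ℤ) * W sy ay fy + Polynomial.C (-(C : ℤ)) * W sz az fz := ⟨_, rfl⟩
  have hb : P.eval (t : ℤ) = 0 := by
    rw [hP, eval_add, eval_add, eval_mul, eval_mul, eval_mul, eval_C, eval_C, eval_C, hx.W_eval,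
      hy.W_eval, hz.W_eval]
    have : (A : ℤ) * (val sx ax : ℕ) + B * (val sy ay : ℕ) = C * (val sz az : ℕ) := by
      exact_mod_cast h
    linarith
  have hcf : ∀ {s : Finset ℕ} {a : ℕ → ℕ} {f : ℕ → ℤ[X]} {e : ℕ}, Pr t U L d k N s a f e →
      (W s a f).natDegree ≤ D → ∀ i ≤ D, |(W s a f).coeff i| ≤ L * V ^ (D - i) := by
    intro s a f e hp hdeg i _
    have h1 := hp.W_dom (by linarith)
    refine h1.coeff_le' (Finset.prod_nonneg fun _ _ => by positivity) hp.lead (by positivity) ?_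
      hV1 ?_
    · rw [hV]
      have : ((∑ v ∈ s, a v : ℕ) : ℤ) ≤ N := by exact_mod_cast hp.hN
      exact mul_le_mul_of_nonneg_right this (by linarith)
    · rw [← hp.W_deg]; exact hdeg
  have hcoef : ∀ i ≤ D, |P.coeff i| ≤ (((A : ℤ) + B + C) * L) * V ^ (D - i) := by
    intro i hi
    rw [hP, coeff_add, coeff_add, coeff_C_mul, coeff_C_mul, coeff_C_mul]
    have h1 := hcf hx hDx i hi
    have h2 := hcf hy hDy i hi
    have h3 := hcf hz hDz i hi
    have h4 := abs_add_le ((A : ℤ) * (W sx ax fx).coeff i + B * (W sy ay fy).coeff i)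
      (-(C : ℤ) * (W sz az fz).coeff i)
    have h5 := abs_add_le ((A : ℤ) * (W sx ax fx).coeff i) (B * (W sy ay fy).coeff i)
    rw [abs_mul, abs_neg, Nat.abs_cast] at h4
    rw [abs_mul, abs_mul, Nat.abs_cast, Nat.abs_cast] at h5
    have hA' : (0 : ℤ) ≤ A := by positivity
    have hB' : (0 : ℤ) ≤ B := by positivity
    have hC' : (0 : ℤ) ≤ C := by positivity
    nlinarith [mul_le_mul_of_nonneg_left h1 hA', mul_le_mul_of_nonneg_left h2 hB',
      mul_le_mul_of_nonneg_left h3 hC']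
  have hPd : P.natDegree ≤ D := by
    rw [hP]
    refine (natDegree_add_le _ _).trans (max_le ((natDegree_add_le _ _).trans (max_le ?_ ?_)) ?_)
    · exact (natDegree_C_mul_le _ _).trans hDx
    · exact (natDegree_C_mul_le _ _).trans hDy
    · exact (natDegree_C_mul_le _ _).trans hDz
  have hP0 : P = 0 := by
    rcases top (K := 9 * (k * d)) hV1 (by positivity) hPd hcoef hb ht with h1 | h1
    · exact h1
    · refine vanish (b := (t : ℤ)) (D := D) (by positivity) (by positivity)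
        (neg_ne_zero.2 (by positivity)) hx.W_ne hy.W_ne hz.W_ne hx.W_LD hy.W_LD hz.W_LD
        ?_ ?_ ?_ hDx hDy hDz (by omega) hP hb h1
      · rw [hx.W_eval]; exact_mod_cast hx.val_pos.ne'
      · rw [hy.W_eval]; exact_mod_cast hy.val_pos.ne'
      · rw [hz.W_eval]; exact_mod_cast hz.val_pos.ne'
  -- the identity over `ℚ`
  have hid : Polynomial.C (A : ℚ) * (W sx ax fx).map (Int.castRingHom ℚ) +
      Polynomial.C (B : ℚ) * (W sy ay fy).map (Int.castRingHom ℚ) =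
      Polynomial.C (C : ℚ) * (W sz az fz).map (Int.castRingHom ℚ) := by
    have h1 : (Polynomial.C (A : ℤ) * W sx ax fx +
      Polynomial.C (B : ℤ) * W sy ay fy).map (Int.castRingHom ℚ) =
      (Polynomial.C (C : ℤ) * W sz az fz).map (Int.castRingHom ℚ) := by
      congr 1
      rw [hP0, Polynomial.C_neg] at hP
      linear_combination -hP
    simpa [Polynomial.map_add, Polynomial.map_mul] using h1
  have hinj : Function.Injective (Int.castRingHom ℚ) := Int.cast_injective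
  have hne : ∀ {s : Finset ℕ} {a : ℕ → ℕ} {f : ℕ → ℤ[X]} {e : ℕ}, Pr t U L d k N s a f e →
      (W s a f).map (Int.castRingHom ℚ) ≠ 0 := fun hp =>
    (Polynomial.map_ne_zero_iff hinj).2 hp.W_ne
  have hxd : ((W sx ax fx).map (Int.castRingHom ℚ)).natDegree = (∑ v ∈ sx, ax v) * ex := by
    rw [natDegree_map_eq_of_injective hinj, hx.W_deg]
  have hyd : ((W sy ay fy).map (Int.castRingHom ℚ)).natDegree = (∑ v ∈ sy, ay v) * ey := by
    rw [natDegree_map_eq_of_injective hinj, hy.W_deg]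
  have hzd : ((W sz az fz).map (Int.castRingHom ℚ)).natDegree = (∑ v ∈ sz, az v) * ez := by
    rw [natDegree_map_eq_of_injective hinj, hz.W_deg]
  have hA' : (A : ℚ) ≠ 0 := by positivity
  have hB' : (B : ℚ) ≠ 0 := by positivity
  have hC' : (C : ℚ) ≠ 0 := by positivity
  obtain ⟨m1, m2, m3⟩ := mason (hne hx) (hne hy) (hne hz) hA' hB' hC' hid (by
    intro q h1 h2
    exact sq_unit (x := W sx ax fx) (y := W sy ay fy) (ρ := (U : ℝ) + 1) (t := t)
      (X := val sx ax) (Y := val sy ay) hx.W_ne h1 h2 (fun z hz => hx.W_root hz)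
      (by
        have : ((U + 2 : ℤ) : ℝ) ≤ ((t : ℤ) : ℝ) := by exact_mod_cast ht2
        push_cast at this
        linarith) hx.val_pos.ne' hx.W_eval hy.W_eval hg) (by
    rw [hxd, hyd, hzd]
    have g1 := Nat.mul_le_mul_right ex hx1
    have g2 := Nat.mul_le_mul_right ey hy1
    have g3 := Nat.mul_le_mul_right ez hz1
    omega)
  have r1 := hx.W_rad
  have r2 := hy.W_rad
  have r3 := hz.W_rad
  rw [hxd] at m1
  rw [hyd] at m2
  rw [hzd] at m3
  refine ⟨?_, ?_, ?_⟩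
  · omega
  · omega
  · omega

end Pool.Agent.J4H90.PS
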