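import Mathlib

/-!
Polynomials with few different factors: coefficients vanish from the top, and a truncated
Mason-Stothers argument.
-/

namespace Pool.Agent.J4H90.PS

open Polynomial

/-! ### Domination -/

/-- the coefficients of `f` are dominated, from the top, by `L` times the powers of `V` -/
def Dom (f : ℤ[X]) (m : ℕ) (L V : ℤ) : Prop :=
  f.natDegree ≤ m ∧ ∀ j, |(reflect m f).coeff j| ≤ L * V ^ j

theorem Dom.mul {f g : ℤ[X]} {m n : ℕ} {L M V W : ℤ} (hL : 0 ≤ L) (hM : 0 ≤ M) (hV : 0 ≤ V)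
    (hW : 0 ≤ W) (hf : Dom f m L V) (hg : Dom g n M W) :
    Dom (f * g) (m + n) (L * M) (V + W) := by
  refine ⟨natDegree_mul_le.trans (add_le_add hf.1 hg.1), fun j => ?_⟩
  rw [reflect_mul f g hf.1 hg.1, coeff_mul, Commute.add_pow' (Commute.all V W), Finset.mul_sum]
  refine (Finset.abs_sum_le_sum_abs _ _).trans (Finset.sum_le_sum fun p hp => ?_)
  rw [abs_mul]
  have h1 := hf.2 p.1
  have h2 := hg.2 p.2
  have h3 : (1 : ℤ) ≤ (j.choose p.1 : ℤ) := by
    have : 0 < j.choose p.1 := Nat.choose_pos (by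
      have := Finset.HasAntidiagonal.mem_antidiagonal.1 hp
      omega)
    exact_mod_cast this
  have h4 : 0 ≤ V ^ p.1 * W ^ p.2 := by positivity
  have h5 : |(reflect m f).coeff p.1| * |(reflect n g).coeff p.2| ≤
      (L * V ^ p.1) * (M * W ^ p.2) :=
    mul_le_mul h1 h2 (abs_nonneg _) (by positivity)
  have h6 : 0 ≤ L * M := by positivity
  rw [nsmul_eq_mul]
  calc |(reflect m f).coeff p.1| * |(reflect n g).coeff p.2| ≤ (L * V ^ p.1) * (M * W ^ p.2) := h5
    _ = L * M * (1 * (V ^ p.1 * W ^ p.2)) := by ring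
    _ ≤ L * M * ((j.choose p.1 : ℤ) * (V ^ p.1 * W ^ p.2)) := by gcongr

theorem Dom.one : Dom (1 : ℤ[X]) 0 1 0 := by
  refine ⟨by simp, fun j => ?_⟩
  have : reflect 0 (1 : ℤ[X]) = 1 := by simp
  rw [this, coeff_one]
  rcases Nat.eq_zero_or_pos j with h | h
  · simp [h]
  · rw [if_neg (by omega), abs_zero, zero_pow (by omega), mul_zero]

theorem Dom.pow {f : ℤ[X]} {m : ℕ} {L V : ℤ} (hL : 0 ≤ L) (hV : 0 ≤ V) (hf : Dom f m L V)
    (n : ℕ) : Dom (f ^ n) (n * m) (L ^ n) (n * V) := by
  induction n with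
  | zero => simpa using Dom.one
  | succ n ih =>
    have := Dom.mul (by positivity) hL (by positivity) hV ih hf
    rw [pow_succ, pow_succ]
    convert this using 1
    · ring
    · push_cast; ring

theorem Dom.prod {ι : Type*} (s : Finset ι) (f : ι → ℤ[X]) (m : ι → ℕ) (L V : ι → ℤ)
    (hL : ∀ i ∈ s, 0 ≤ L i) (hV : ∀ i ∈ s, 0 ≤ V i) (hf : ∀ i ∈ s, Dom (f i) (m i) (L i) (V i)) :
    Dom (∏ i ∈ s, f i) (∑ i ∈ s, m i) (∏ i ∈ s, L i) (∑ i ∈ s, V i) := by
  classical
  induction s using Finset.induction_on with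
  | empty => simpa using Dom.one
  | insert i s hi ih =>
    rw [Finset.prod_insert hi, Finset.sum_insert hi, Finset.sum_insert hi, Finset.prod_insert hi]
    exact Dom.mul (hL i (Finset.mem_insert_self _ _))
      (Finset.prod_nonneg fun j hj => hL j (Finset.mem_insert_of_mem hj))
      (hV i (Finset.mem_insert_self _ _))
      (Finset.sum_nonneg fun j hj => hV j (Finset.mem_insert_of_mem hj))
      (hf i (Finset.mem_insert_self _ _))
      (ih (fun j hj => hL j (Finset.mem_insert_of_mem hj))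
        (fun j hj => hV j (Finset.mem_insert_of_mem hj))
        (fun j hj => hf j (Finset.mem_insert_of_mem hj)))

theorem Dom.coeff_le {f : ℤ[X]} {m : ℕ} {L V : ℤ} (hf : Dom f m L V) {i : ℕ} (hi : i ≤ m) :
    |f.coeff i| ≤ L * V ^ (m - i) := by
  have := hf.2 (m - i)
  rwa [coeff_reflect, revAt_le (by omega), Nat.sub_sub_self hi] at this

theorem Dom.coeff_le' {f : ℤ[X]} {m D : ℕ} {L L' V W : ℤ} (hf : Dom f m L V) (hL : 0 ≤ L)
    (hLL : L ≤ L') (hV : 0 ≤ V) (hVW : V ≤ W) (hW : 1 ≤ W) (hD : m ≤ D) {i : ℕ} :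
    |f.coeff i| ≤ L' * W ^ (D - i) := by
  have hL' : 0 ≤ L' := hL.trans hLL
  rcases le_or_gt i m with h | h
  · calc |f.coeff i| ≤ L * V ^ (m - i) := hf.coeff_le h
      _ ≤ L * W ^ (m - i) := by gcongr
      _ ≤ L * W ^ (D - i) := by gcongr
      _ ≤ L' * W ^ (D - i) := by gcongr
  · rw [coeff_eq_zero_of_natDegree_lt (by have := hf.1; omega), abs_zero]
    positivity

/-- a polynomial with coefficients at most `U` -/
theorem Dom.of_ne_zero {f : ℤ[X]} (hf : f ≠ 0) {U : ℤ} (hU : ∀ i, |f.coeff i| ≤ U) :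
    Dom f f.natDegree |f.leadingCoeff| U := by
  refine ⟨le_rfl, fun j => ?_⟩
  have hl : 1 ≤ |f.leadingCoeff| := Int.one_le_abs (leadingCoeff_ne_zero.2 hf)
  have hU1 : 1 ≤ U := hl.trans (hU f.natDegree)
  rcases Nat.eq_zero_or_pos j with h | h
  · subst h
    rw [coeff_reflect, revAt_le (by omega), Nat.sub_zero]
    simp
  · rw [coeff_reflect]
    calc |f.coeff (revAt f.natDegree j)| ≤ U := hU _
      _ = 1 * U ^ 1 := by ring
      _ ≤ |f.leadingCoeff| * U ^ j := by gcongr; omega

/-- the top coefficients vanish -/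
theorem top {P : ℤ[X]} {D K : ℕ} {H V b : ℤ} (hV : 1 ≤ V) (hH : 0 ≤ H) (hD : P.natDegree ≤ D)
    (hc : ∀ i ≤ D, |P.coeff i| ≤ H * V ^ (D - i)) (hb : P.eval b = 0)
    (hbV : V + H * V ^ (K + 1) < b) : P = 0 ∨ P.natDegree + K < D := by
  by_cases hP : P = 0
  · exact Or.inl hP
  right
  by_contra hcon
  push Not at hcon
  set d := P.natDegree with hd
  have hb0 : 0 < b := by
    have : 0 ≤ H * V ^ (K + 1) := by positivity
    linarith
  have hbd : 0 < b ^ d := by positivity
  have h1 : P.leadingCoeff ≠ 0 := leadingCoeff_ne_zero.2 hP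
  have h2 : 1 ≤ |P.leadingCoeff| := Int.one_le_abs h1
  have h3 : P.eval b = ∑ i ∈ Finset.range d, P.coeff i * b ^ i + P.coeff d * b ^ d := by
    rw [eval_eq_sum_range, Finset.sum_range_succ]
  have h4 : |P.leadingCoeff| * b ^ d = |∑ i ∈ Finset.range d, P.coeff i * b ^ i| := by
    rw [hb] at h3
    have : P.coeff d * b ^ d = -∑ i ∈ Finset.range d, P.coeff i * b ^ i := by linarith
    rw [← abs_neg (∑ i ∈ Finset.range d, P.coeff i * b ^ i), ← this, abs_mul, abs_of_pos hbd]
    rfl
  have h5 : |∑ i ∈ Finset.range d, P.coeff i * b ^ i| ≤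
      H * V ^ (D - d) * (V * ∑ i ∈ Finset.range d, b ^ i * V ^ (d - 1 - i)) := by
    refine (Finset.abs_sum_le_sum_abs _ _).trans ?_
    rw [Finset.mul_sum, Finset.mul_sum]
    refine Finset.sum_le_sum fun i hi => ?_
    have hi' := Finset.mem_range.1 hi
    rw [abs_mul, abs_of_pos (by positivity : 0 < b ^ i)]
    have h6 := hc i (by omega)
    have h7 : V ^ (D - i) = V ^ (D - d) * (V * V ^ (d - 1 - i)) := by
      rw [← pow_succ', ← pow_add]
      congr 1
      omega
    calc |P.coeff i| * b ^ i ≤ H * V ^ (D - i) * b ^ i := by gcongr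
      _ = _ := by rw [h7]; ring
  have h6 : (∑ i ∈ Finset.range d, b ^ i * V ^ (d - 1 - i)) * (b - V) = b ^ d - V ^ d :=
    (Commute.all b V).geom_sum₂_mul d
  have hbV' : 0 < b - V := by
    have : 0 ≤ H * V ^ (K + 1) := by positivity
    linarith
  have h7 : b ^ d * (b - V) ≤ H * V ^ (D - d) * V * b ^ d := by
    have h8 : b ^ d ≤ H * V ^ (D - d) * (V * ∑ i ∈ Finset.range d, b ^ i * V ^ (d - 1 - i)) := by
      calc b ^ d = 1 * b ^ d := (one_mul _).symm
        _ ≤ |P.leadingCoeff| * b ^ d := by gcongr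
        _ ≤ _ := h4.trans_le h5
    have h9 : 0 ≤ V ^ d := by positivity
    calc b ^ d * (b - V) ≤ H * V ^ (D - d) * (V * ∑ i ∈ Finset.range d, b ^ i * V ^ (d - 1 - i)) *
          (b - V) := by gcongr
      _ = H * V ^ (D - d) * V * (b ^ d - V ^ d) := by rw [← h6]; ring
      _ ≤ H * V ^ (D - d) * V * b ^ d := by
        have : 0 ≤ H * V ^ (D - d) * V := by positivity
        nlinarith
  have h8 : b - V ≤ H * V ^ (D - d) * V := by
    have : b ^ d * (b - V) ≤ b ^ d * (H * V ^ (D - d) * V) := by linarith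
    exact le_of_mul_le_mul_left this hbd
  have h9 : H * V ^ (D - d) * V ≤ H * V ^ (K + 1) := by
    rw [mul_assoc, ← pow_succ]
    gcongr
    omega
  linarith

/-! ### Logarithmic derivatives -/

/-- the logarithmic derivative of `f` is a quotient of polynomials of degree at most `r` -/
def LD (f : ℤ[X]) (r : ℕ) : Prop :=
  ∃ R m : ℤ[X], R ≠ 0 ∧ R * derivative f = m * f ∧ R.natDegree ≤ r ∧ m.natDegree ≤ r

theorem LD.self {f : ℤ[X]} (hf : f ≠ 0) : LD f f.natDegree :=
  ⟨f, derivative f, hf, by ring, le_rfl, (natDegree_derivative_le f).trans (Nat.sub_le _ _)⟩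

theorem LD.one : LD 1 0 := ⟨1, 0, one_ne_zero, by simp, by simp, by simp⟩

theorem LD.mul {f g : ℤ[X]} {r s : ℕ} (hf : LD f r) (hg : LD g s) : LD (f * g) (r + s) := by
  obtain ⟨R, m, hR, h1, h2, h3⟩ := hf
  obtain ⟨S, n, hS, h4, h5, h6⟩ := hg
  refine ⟨R * S, m * S + R * n, mul_ne_zero hR hS, ?_, ?_, ?_⟩
  · rw [derivative_mul]
    linear_combination S * g * h1 + R * f * h4
  · exact natDegree_mul_le.trans (add_le_add h2 h5)
  · exact (natDegree_add_le _ _).trans (max_le (natDegree_mul_le.trans (add_le_add h3 h5))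
      (natDegree_mul_le.trans (add_le_add h2 h6)))

theorem LD.pow {f : ℤ[X]} {r : ℕ} (hf : LD f r) (n : ℕ) : LD (f ^ n) r := by
  obtain ⟨R, m, hR, h1, h2, h3⟩ := hf
  refine ⟨R, n * m, hR, ?_, h2, ?_⟩
  · rcases Nat.eq_zero_or_pos n with h | h
    · subst h; simp
    · obtain ⟨k, rfl⟩ := Nat.exists_eq_add_of_lt h
      rw [derivative_pow]
      simp only [zero_add, map_natCast, Nat.add_sub_cancel]
      push_cast
      linear_combination ((k : ℤ[X]) + 1) * f ^ k * h1
  · have : (n : ℤ[X]) * m = C (n : ℤ) * m := by simp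
    rw [this]
    exact (natDegree_C_mul_le _ _).trans h3

theorem LD.prod {ι : Type*} (s : Finset ι) (f : ι → ℤ[X]) (r : ι → ℕ)
    (hf : ∀ i ∈ s, LD (f i) (r i)) : LD (∏ i ∈ s, f i) (∑ i ∈ s, r i) := by
  classical
  induction s using Finset.induction_on with
  | empty => simpa using LD.one
  | insert i s hi ih =>
    rw [Finset.prod_insert hi, Finset.sum_insert hi]
    exact LD.mul (hf i (Finset.mem_insert_self _ _))
      (ih (fun j hj => hf j (Finset.mem_insert_of_mem hj)))

theorem degeq {f g : ℤ[X]} (hf : f ≠ 0) (hg : g ≠ 0)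
    (h : derivative f * g = f * derivative g) : f.natDegree = g.natDegree := by
  have h1 : (X * derivative f) * g = f * (X * derivative g) := by
    rw [mul_assoc, h]; ring
  have hX : ∀ p : ℤ[X], (X * derivative p).natDegree ≤ p.natDegree := by
    intro p
    by_cases hp : p.natDegree = 0
    · rw [derivative_of_natDegree_zero hp]; simp
    · refine natDegree_mul_le.trans ?_
      rw [natDegree_X]
      have := natDegree_derivative_lt hp
      omega
  have hc : ∀ p : ℤ[X], (X * derivative p).coeff p.natDegree = p.natDegree * p.leadingCoeff := by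
    intro p
    rcases Nat.eq_zero_or_pos p.natDegree with h0 | h0
    · rw [h0, mul_coeff_zero]; simp
    · obtain ⟨k, hk⟩ := Nat.exists_eq_add_of_lt h0
      rw [zero_add] at hk
      rw [leadingCoeff, hk, coeff_X_mul, coeff_derivative]
      push_cast
      ring
  have h2 : ((X * derivative f) * g).coeff (f.natDegree + g.natDegree) =
      (f * (X * derivative g)).coeff (f.natDegree + g.natDegree) := by rw [h1]
  rw [coeff_mul_add_eq_of_natDegree_le (hX f) le_rfl, coeff_mul_add_eq_of_natDegree_le le_rfl (hX g), hc, hc] at h2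
  have h3 : f.leadingCoeff ≠ 0 := leadingCoeff_ne_zero.2 hf
  have h4 : g.leadingCoeff ≠ 0 := leadingCoeff_ne_zero.2 hg
  have h5 : ((f.natDegree : ℤ) - g.natDegree) * (f.leadingCoeff * g.leadingCoeff) = 0 := by
    change (f.natDegree : ℤ) * f.leadingCoeff * g.leadingCoeff =
      f.leadingCoeff * (g.natDegree * g.leadingCoeff) at h2
    linear_combination h2
  rcases mul_eq_zero.1 h5 with h6 | h6
  · exact_mod_cast sub_eq_zero.1 h6
  · exact absurd h6 (mul_ne_zero h3 h4)

/-- polynomials with the same logarithmic derivative are proportional -/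
theorem propor {f g : ℤ[X]} (hf : f ≠ 0) (hg : g ≠ 0)
    (h : derivative f * g = f * derivative g) : C g.leadingCoeff * f = C f.leadingCoeff * g := by
  by_contra hne
  set p := C g.leadingCoeff * f - C f.leadingCoeff * g with hp
  have hp0 : p ≠ 0 := sub_ne_zero.2 hne
  have h1 : derivative p * g = p * derivative g := by
    rw [hp, derivative_sub, derivative_C_mul, derivative_C_mul]
    linear_combination C g.leadingCoeff * h
  have h2 := degeq hp0 hg h1
  have h3 := degeq hf hg h
  have h4 : p.coeff p.natDegree = 0 := by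
    rw [hp, coeff_sub, coeff_C_mul, coeff_C_mul, ← hp, h2]
    change g.leadingCoeff * f.coeff g.natDegree - f.leadingCoeff * g.leadingCoeff = 0
    rw [← h3]
    change g.leadingCoeff * f.leadingCoeff - f.leadingCoeff * g.leadingCoeff = 0
    ring
  exact hp0 (leadingCoeff_eq_zero.1 h4)

end Pool.Agent.J4H90.PS
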