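import Pool.Agent.J4H90.PS.Core

/-!
The truncated Mason-Stothers argument.
-/

namespace Pool.Agent.J4H90.PS

open Polynomial

theorem last_step {R l P f : ℤ[X]} {b : ℤ} (hR : R ≠ 0) (h1 : R * derivative P = l * P)
    (h2 : R * derivative f = l * f) (hb : P.eval b = 0) (hf : f.eval b ≠ 0) : P = 0 := by
  by_contra hP
  have hf0 : f ≠ 0 := by
    rintro rfl
    simp at hf
  have h3 : R * (derivative P * f) = R * (P * derivative f) := by
    linear_combination f * h1 - P * h2
  have h4 := propor hP hf0 (mul_left_cancel₀ hR h3)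
  have h5 : (C f.leadingCoeff * P).eval b = (C P.leadingCoeff * f).eval b := by rw [h4]
  rw [eval_mul, eval_mul, hb, eval_C, eval_C, mul_zero] at h5
  rcases mul_eq_zero.1 h5.symm with h6 | h6
  · exact hP (leadingCoeff_eq_zero.1 h6)
  · exact hf h6

theorem natDegree_mul_le' {p q : ℤ[X]} {m n : ℕ} (hp : p.natDegree ≤ m) (hq : q.natDegree ≤ n) :
    (p * q).natDegree ≤ m + n := natDegree_mul_le.trans (add_le_add hp hq)

theorem natDegree_sub_le' {p q : ℤ[X]} {m : ℕ} (hp : p.natDegree ≤ m) (hq : q.natDegree ≤ m) :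
    (p - q).natDegree ≤ m := (natDegree_sub_le _ _).trans (max_le hp hq)

theorem natDegree_add_le' {p q : ℤ[X]} {m : ℕ} (hp : p.natDegree ≤ m) (hq : q.natDegree ≤ m) :
    (p + q).natDegree ≤ m := (natDegree_add_le _ _).trans (max_le hp hq)

theorem trunc {f1 f2 f3 : ℤ[X]} {c1 c2 c3 b : ℤ} {r D : ℕ}
    (L1 : LD f1 r) (L2 : LD f2 r) (L3 : LD f3 r) (h1 : f1.eval b ≠ 0) (h2 : f2.eval b ≠ 0)
    (h3 : f3.eval b ≠ 0) (hd1 : f1.natDegree = D) (hd2 : f2.natDegree = D) {P : ℤ[X]}
    (hP : P = C c1 * f1 + C c2 * f2 + C c3 * f3) (hb : P.eval b = 0)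
    (hdeg : P.natDegree + 9 * r < D) : P = 0 := by
  obtain ⟨R1, m1, hR1, e1, dR1, dm1⟩ := L1
  obtain ⟨R2, m2, hR2, e2, dR2, dm2⟩ := L2
  obtain ⟨R3, m3, hR3, e3, dR3, dm3⟩ := L3
  have hf1 : f1 ≠ 0 := by rintro rfl; simp at h1
  have hf2 : f2 ≠ 0 := by rintro rfl; simp at h2
  obtain ⟨R, hR⟩ : ∃ R, R = R1 * R2 * R3 := ⟨_, rfl⟩
  obtain ⟨l1, hl1⟩ : ∃ l1, l1 = m1 * R2 * R3 := ⟨_, rfl⟩
  obtain ⟨l2, hl2⟩ : ∃ l2, l2 = R1 * m2 * R3 := ⟨_, rfl⟩
  obtain ⟨l3, hl3⟩ : ∃ l3, l3 = R1 * R2 * m3 := ⟨_, rfl⟩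
  have hR0 : R ≠ 0 := by rw [hR]; exact mul_ne_zero (mul_ne_zero hR1 hR2) hR3
  have E1 : R * derivative f1 = l1 * f1 := by
    rw [hR, hl1]; linear_combination R2 * R3 * e1
  have E2 : R * derivative f2 = l2 * f2 := by
    rw [hR, hl2]; linear_combination R1 * R3 * e2
  have E3 : R * derivative f3 = l3 * f3 := by
    rw [hR, hl3]; linear_combination R1 * R2 * e3
  have dR : R.natDegree ≤ 3 * r := by
    rw [hR]
    exact (natDegree_mul_le' (natDegree_mul_le' dR1 dR2) dR3).trans (by omega)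
  have dl1 : l1.natDegree ≤ 3 * r := by
    rw [hl1]
    exact (natDegree_mul_le' (natDegree_mul_le' dm1 dR2) dR3).trans (by omega)
  have dl2 : l2.natDegree ≤ 3 * r := by
    rw [hl2]
    exact (natDegree_mul_le' (natDegree_mul_le' dR1 dm2) dR3).trans (by omega)
  have dl3 : l3.natDegree ≤ 3 * r := by
    rw [hl3]
    exact (natDegree_mul_le' (natDegree_mul_le' dR1 dR2) dm3).trans (by omega)
  obtain ⟨α, hα⟩ : ∃ α, α = C c1 * (l1 - l3) := ⟨_, rfl⟩
  obtain ⟨β, hβ⟩ : ∃ β, β = C c2 * (l2 - l3) := ⟨_, rfl⟩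
  have dα : α.natDegree ≤ 3 * r := by
    rw [hα]; exact (natDegree_C_mul_le _ _).trans (natDegree_sub_le' dl1 dl3)
  have dβ : β.natDegree ≤ 3 * r := by
    rw [hβ]; exact (natDegree_C_mul_le _ _).trans (natDegree_sub_le' dl2 dl3)
  obtain ⟨P1, hP1⟩ : ∃ P1, P1 = α * f1 + β * f2 := ⟨_, rfl⟩
  have hdP : derivative P = C c1 * derivative f1 + C c2 * derivative f2 + C c3 * derivative f3 := by
    rw [hP, derivative_add, derivative_add, derivative_C_mul, derivative_C_mul, derivative_C_mul]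
  have E4 : P1 = R * derivative P - l3 * P := by
    rw [hdP, hP, hP1, hα, hβ]
    linear_combination (-C c1) * E1 - C c2 * E2 - C c3 * E3
  have dP' : (derivative P).natDegree ≤ P.natDegree :=
    (natDegree_derivative_le P).trans (Nat.sub_le _ _)
  have dP1 : P1.natDegree ≤ 3 * r + P.natDegree := by
    rw [E4]
    exact natDegree_sub_le' (natDegree_mul_le' dR dP') (natDegree_mul_le' dl3 le_rfl)
  -- if `P1 = 0`
  have key : P1 = 0 → P = 0 := by
    intro h0
    rw [h0] at E4
    exact last_step hR0 (by linear_combination -E4) E3 hb h3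
  by_cases hα0 : α = 0
  · by_cases hβ0 : β = 0
    · exact key (by rw [hP1, hα0, hβ0]; ring)
    · exfalso
      have : P1.natDegree = β.natDegree + D := by
        rw [hP1, hα0, zero_mul, zero_add, natDegree_mul hβ0 hf2, hd2]
      omega
  by_cases hβ0 : β = 0
  · exfalso
    have : P1.natDegree = α.natDegree + D := by
      rw [hP1, hβ0, zero_mul, add_zero, natDegree_mul hα0 hf1, hd1]
    omega
  -- both nonzero
  obtain ⟨Φ, hΦ⟩ : ∃ Φ, Φ = β * (R * derivative α + α * l1) - α * (R * derivative β + β * l2) :=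
    ⟨_, rfl⟩
  have hdP1 : derivative P1 = derivative α * f1 + α * derivative f1 +
      (derivative β * f2 + β * derivative f2) := by
    rw [hP1, derivative_add, derivative_mul, derivative_mul]
  have E5 : Φ * f1 = β * (R * derivative P1) - (R * derivative β + β * l2) * P1 := by
    rw [hdP1, hΦ, hP1]
    linear_combination (-α * β) * E1 - β * β * E2
  have dα' : (derivative α).natDegree ≤ 3 * r :=
    ((natDegree_derivative_le α).trans (Nat.sub_le _ _)).trans dα
  have dβ' : (derivative β).natDegree ≤ 3 * r :=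
    ((natDegree_derivative_le β).trans (Nat.sub_le _ _)).trans dβ
  have dP1' : (derivative P1).natDegree ≤ 3 * r + P.natDegree :=
    ((natDegree_derivative_le P1).trans (Nat.sub_le _ _)).trans dP1
  by_cases hΦ0 : Φ = 0
  · have E6 : R * (derivative (α * f1) * (β * f2)) = R * ((α * f1) * derivative (β * f2)) := by
      rw [derivative_mul, derivative_mul]
      have hz : β * (R * derivative α + α * l1) - α * (R * derivative β + β * l2) = 0 := by
        rw [← hΦ, hΦ0]
      linear_combination (f1 * f2) * hz + (α * β * f2) * E1 - (α * β * f1) * E2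
    have hαf : α * f1 ≠ 0 := mul_ne_zero hα0 hf1
    have hβf : β * f2 ≠ 0 := mul_ne_zero hβ0 hf2
    have E7 := propor hαf hβf (mul_left_cancel₀ hR0 E6)
    set p := (β * f2).leadingCoeff with hp
    set q := (α * f1).leadingCoeff with hq
    have hp0 : p ≠ 0 := leadingCoeff_ne_zero.2 hβf
    have E8 : C p * P1 = C (q + p) * (β * f2) := by
      rw [hP1, C_add]
      linear_combination E7
    by_cases hqp : q + p = 0
    · apply key
      rw [hqp, C_0, zero_mul] at E8
      rcases mul_eq_zero.1 E8 with h | h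
      · exact absurd (C_eq_zero.1 h) hp0
      · exact h
    · exfalso
      have h5 : (C (q + p) * (β * f2)).natDegree = β.natDegree + D := by
        rw [natDegree_C_mul hqp, natDegree_mul hβ0 hf2, hd2]
      have h6 : (C p * P1).natDegree ≤ P1.natDegree := natDegree_C_mul_le _ _
      rw [E8, h5] at h6
      omega
  · exfalso
    have h5 : (Φ * f1).natDegree = Φ.natDegree + D := by rw [natDegree_mul hΦ0 hf1, hd1]
    have h6 : (Φ * f1).natDegree ≤ 9 * r + P.natDegree := by
      rw [E5]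
      refine natDegree_sub_le' ?_ ?_
      · exact (natDegree_mul_le' dβ (natDegree_mul_le' dR dP1')).trans (by omega)
      · refine (natDegree_mul_le' (natDegree_add_le' (natDegree_mul_le' dR dβ')
          (natDegree_mul_le' dβ dl2)) dP1).trans (by omega)
    omega

end Pool.Agent.J4H90.PS
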